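import Mathlib

set_option autoImplicit false

/-! # Open forward invariant sets of the maps `y ↦ b y`, `y ↦ b y - 1` -/

namespace Pool.Agent.H99.BT

open Set Filter Topology

theorem openCore {b a c : ℝ} (b1 : 1 < b) (a0 : 0 ≤ a) (ba : b * a ≤ 1) (hc : b * c = 1 + a)
    (hx : ¬ (b * a = 1 ∧ ∃ n : ℕ, 2 ≤ n ∧ b ^ n = 2))
    {B : Set ℝ} (hB : IsOpen B) (sub : B ⊆ Ioo a (1 + a)) (P1 : ∀ y ∈ B, y < c → b * y ∈ B)
    (P2 : ∀ y ∈ B, c < y → b * y - 1 ∈ B) (hne : B.Nonempty) :
    Ioo a (1 + a) ⊆ B := by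
  have b0 : 0 < b := by linarith
  have e : ∀ z, b * (z / b) = z := fun z => by field_simp
  have I1 : ∀ s t, Ioo s t ⊆ B → t ≤ c → Ioo (b * s) (b * t) ⊆ B := fun s t h k z hz => by
    have h1 : z / b < t := by rw [div_lt_iff₀ b0]; linarith [hz.2]
    have h2 : s < z / b := by rw [lt_div_iff₀ b0]; linarith [hz.1]
    exact e z ▸ P1 _ (h ⟨h2, h1⟩) (by linarith)
  have I2 : ∀ s t, Ioo s t ⊆ B → c ≤ s → Ioo (b * s - 1) (b * t - 1) ⊆ B := fun s t h k z hz => by
    have h1 : (z + 1) / b < t := by rw [div_lt_iff₀ b0]; linarith [hz.2]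
    have h2 : s < (z + 1) / b := by rw [lt_div_iff₀ b0]; linarith [hz.1]
    have := P2 _ (h ⟨h2, h1⟩) (by linarith)
    simpa [e] using this
  have I3 : ∀ s t, 0 < t → Ioo s t ⊆ B →
      ∃ j : ℕ, Ioo (b ^ j * s) (b ^ j * t) ⊆ B ∧ c < b ^ j * t := fun s t t0 h => by
    by_contra! q
    have : ∀ j : ℕ, Ioo (b ^ j * s) (b ^ j * t) ⊆ B := fun j => by
      induction j with
      | zero => simpa
      | succ j ih =>
        rw [pow_succ', mul_assoc, mul_assoc]
        exact I1 _ _ ih (q j ih)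
    obtain ⟨j, hj⟩ := (((tendsto_pow_atTop_atTop_of_one_lt b1).atTop_mul_const t0).eventually_gt_atTop
      c).exists
    exact hj.not_ge (q j (this j))
  -- a longest interval
  let K := {p : ℝ × ℝ | p.1 ∈ Icc a (1 + a) ∧ p.2 ∈ Icc a (1 + a) ∧
    ∀ z, z ∉ B → z ≤ p.1 ∨ p.2 ≤ z}
  have cK : IsCompact K := by
    have h1 : IsClosed K := by
      have h2 : K = {p : ℝ × ℝ | p.1 ∈ Icc a (1 + a)} ∩ ({p : ℝ × ℝ | p.2 ∈ Icc a (1 + a)} ∩
          ⋂ z, ⋂ (_ : z ∉ B), ({p : ℝ × ℝ | z ≤ p.1} ∪ {p : ℝ × ℝ | p.2 ≤ z})) := by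
        ext p
        simp [K]
      rw [h2]
      refine IsClosed.inter (isClosed_Icc.preimage continuous_fst)
        (IsClosed.inter (isClosed_Icc.preimage continuous_snd) ?_)
      refine isClosed_iInter fun z => isClosed_iInter fun _ => ?_
      exact (isClosed_le continuous_const continuous_fst).union
        (isClosed_le continuous_snd continuous_const)
    refine (isCompact_Icc (a := (a, a)) (b := (1 + a, 1 + a))).of_isClosed_subset h1 ?_
    rintro ⟨p, q⟩ ⟨h2, h3, -⟩
    exact ⟨⟨h2.1, h3.1⟩, ⟨h2.2, h3.2⟩⟩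
  have mK : ∀ s t, s < t → Ioo s t ⊆ B → (s, t) ∈ K := fun s t st h => by
    obtain ⟨h1, h2⟩ := (Ioo_subset_Ioo_iff st).1 (h.trans sub)
    refine ⟨⟨h1, by linarith⟩, ⟨by linarith, h2⟩, fun z hz => ?_⟩
    by_contra! k
    exact hz (h ⟨k.1, k.2⟩)
  obtain ⟨z0, hz0⟩ := hne
  obtain ⟨s0, t0, hz1, hst⟩ := mem_nhds_iff_exists_Ioo_subset.1 (hB.mem_nhds hz0)
  have hst0 : s0 < t0 := hz1.1.trans hz1.2
  obtain ⟨⟨u, v⟩, ⟨-, -, hJ⟩, hM⟩ := cK.exists_isMaxOn ⟨_, mK s0 t0 hst0 hst⟩
    (continuous_snd.sub continuous_fst).continuousOn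
  have M : ∀ s t, s < t → Ioo s t ⊆ B → t - s ≤ v - u := fun s t st h => hM (mK s t st h)
  have uv : u < v := by linarith [M s0 t0 hst0 hst]
  have J : Ioo u v ⊆ B := fun z hz => by
    by_contra k
    rcases hJ z k with h | h
    · exact absurd hz.1 (not_lt.2 h)
    · exact absurd hz.2 (not_lt.2 h)
  have N : ∀ s t, s < t → Ioo s t ⊆ B → s < v → u < t → u ≤ s ∧ t ≤ v := fun s t st h h1 h2 => by
    constructor <;> by_contra! k
    · have := M s v h1 fun z ⟨z1, z2⟩ => (lt_or_ge z t).elim (fun q => h ⟨z1, q⟩)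
        fun q => J ⟨h2.trans_le q, z2⟩
      linarith
    · have := M u t h2 fun z ⟨z1, z2⟩ => (lt_or_ge z v).elim (fun q => J ⟨z1, q⟩)
        fun q => h ⟨h1.trans_le q, z2⟩
      linarith
  have c1 : c < v := by
    by_contra! k
    have := M _ _ (by nlinarith) (I1 u v J k)
    nlinarith
  have c2 : u < c := by
    by_contra! k
    have := M _ _ (by nlinarith) (I2 u v J k)
    nlinarith
  have L1 := I1 u c (fun z hz => J ⟨hz.1, hz.2.trans c1⟩) le_rfl
  have R1 := I2 c v (fun z hz => J ⟨c2.trans hz.1, hz.2⟩) le_rfl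
  rw [hc] at L1 R1
  rw [add_sub_cancel_left] at R1
  obtain ⟨ua, va⟩ := (Ioo_subset_Ioo_iff uv).1 (J.trans sub)
  have y0 : 0 < b * (1 + a) - 1 := by nlinarith
  have ca : c < 1 + a := by linarith
  have bu : b * u < 1 + a := by nlinarith
  by_cases q : b * u < v
  · have v1 := (N _ _ bu L1 q (by linarith)).2
    have : ∀ k : ℕ, Ioo a (min (b ^ k * (b * (1 + a) - 1)) (1 + a)) ⊆ B := fun k => by
      induction k with
      | zero => exact fun z ⟨z1, z2⟩ => R1 ⟨z1, by
          have := z2.trans_le (min_le_left _ _); nlinarith⟩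
      | succ k ih =>
        intro z ⟨z1, z2⟩
        rw [lt_min_iff] at z2
        rcases le_total z (b * a) with w | w
        · exact R1 ⟨z1, by nlinarith⟩
        have hzc : z / b < c := by rw [div_lt_iff₀ b0]; linarith
        rcases w.eq_or_lt with w | w
        · exact R1 ⟨z1, by nlinarith⟩
        refine e z ▸ P1 _ (ih ⟨by rw [lt_div_iff₀ b0]; linarith, lt_min ?_ (by linarith)⟩) hzc
        rw [div_lt_iff₀ b0]
        linarith [z2.1, pow_succ b k ▸ z2.1]
    obtain ⟨j, hj⟩ := (((tendsto_pow_atTop_atTop_of_one_lt b1).atTop_mul_const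
      y0).eventually_ge_atTop (1 + a)).exists
    exact min_eq_right hj ▸ this j
  exfalso
  push Not at q
  obtain ⟨j, j1, j2⟩ := I3 _ _ y0 (I2 _ _ L1 (by linarith))
  obtain ⟨i, i1, i2⟩ := I3 _ _ (by nlinarith) R1
  obtain ⟨p, rfl⟩ : ∃ p, u = c - p := ⟨c - u, by ring⟩
  obtain ⟨r, rfl⟩ : ∃ r, v = c + r := ⟨v - c, by ring⟩
  have p0 : 0 < p := by linarith
  have r0 : 0 < r := by linarith
  set y := b * (1 + a) - 1 with hy
  have l0 := pow_pos b0 j
  have m0 := pow_pos b0 i
  rw [show b * (b * (c - p)) - 1 = y - b ^ 2 * p by rw [hy, ← hc]; ring] at j1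
  rw [show b * (c + r) - 1 = a + b * r by linarith] at i1 i2
  have bp : 0 < b ^ 2 * p := by positivity
  have br : 0 < b * r := by positivity
  have HL : p < r * (y - b ^ 2 * p) ∨ (b ^ j * y = c + r ∧ p ≤ r * (y - b ^ 2 * p)) := by
    obtain ⟨f, hf⟩ : ∃ f, b ^ j * y = c + f := ⟨b ^ j * y - c, by ring⟩
    have id : b ^ j * b ^ 2 * p * y = p * (y + 1 + b ^ 2 * f) := by
      rw [show b ^ j * b ^ 2 * p * y = b ^ 2 * p * (b ^ j * y) by ring, hf, hy, ← hc]; ring
    rcases le_or_gt f r with k | k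
    · have := (N _ _ (by nlinarith) j1 (by nlinarith) (by linarith)).1
      have : b ^ j * b ^ 2 * p * y ≤ (f + p) * y := mul_le_mul_of_nonneg_right (by linarith) y0.le
      have w : p ≤ f * (y - b ^ 2 * p) := by linarith
      have : 0 < y - b ^ 2 * p := by by_contra! z; nlinarith
      rcases k.eq_or_lt with rfl | k
      · exact Or.inr ⟨hf, w⟩
      · exact Or.inl (by nlinarith)
    · have := M _ _ (by nlinarith) j1
      have : b ^ j * b ^ 2 * p * y ≤ (r + p) * y := mul_le_mul_of_nonneg_right (by linarith) y0.le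
      exact Or.inl (by nlinarith)
  have HR : r < p * (a + b * r) ∨ (b ^ i * a = c - p ∧ r ≤ p * (a + b * r)) := by
    obtain ⟨f, hf⟩ : ∃ f, b ^ i * a = c - f := ⟨c - b ^ i * a, by ring⟩
    have id : b ^ i * b * r * a = r * (1 + a - b * f) := by
      rw [show b ^ i * b * r * a = b * r * (b ^ i * a) by ring, hf, ← hc]; ring
    rcases le_or_gt f 0 with k | k
    · have := M _ _ (by nlinarith) i1
      have : b ^ i * b * r * a ≤ (r + p) * a := mul_le_mul_of_nonneg_right (by linarith) a0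
      exact Or.inl (by nlinarith)
    · obtain ⟨n1, n2⟩ := N _ _ (by nlinarith) i1 (by linarith) (by linarith)
      have : b ^ i * b * r * a ≤ (r + f) * a := mul_le_mul_of_nonneg_right (by linarith) a0
      have w : r ≤ f * (a + b * r) := by linarith
      rcases (show f ≤ p by linarith).eq_or_lt with rfl | k
      · exact Or.inr ⟨hf, w⟩
      · exact Or.inl (by nlinarith)
  have w1 : r * y ≤ r * b := mul_le_mul_of_nonneg_left (by linarith) r0.le
  have w2 : p * (b * a) ≤ p := by nlinarith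
  rcases HL with k | ⟨k, k'⟩
  · have : b * r ≤ b * (p * (a + b * r)) := mul_le_mul_of_nonneg_left
      (HR.elim le_of_lt And.right) b0.le
    nlinarith
  rcases HR with l | ⟨l, l'⟩
  · have := mul_lt_mul_of_pos_left l b0
    nlinarith
  have := mul_le_mul_of_nonneg_left l' b0.le
  have ba1 : b * a = 1 := le_antisymm ba (by by_contra! z; nlinarith)
  have hyb : y = b := by linarith
  rw [hyb] at k k'
  have e1 : b * (b ^ i * a) = b ^ i := by rw [mul_left_comm, ba1, mul_one]
  have h1 : b ^ (j + 1) ≤ b ^ i := by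
    rw [pow_succ]
    nlinarith
  have h2 : j + 1 ≤ i := (pow_le_pow_iff_right₀ b1).1 h1
  have h3 : b ^ i < b ^ (j + 2) := by
    have : b ^ (j + 2) = b * (b ^ j * b) := by ring
    nlinarith
  have h4 : i < j + 2 := (pow_lt_pow_iff_right₀ b1).1 h3
  have h5 : i = j + 1 := by omega
  subst h5
  -- the exceptional parameters
  have hz : b ^ (j + 2) = 2 := by
    set z := b ^ (j + 2) with hzdef
    have hz1 : b * z = b * b ^ (j + 1) * b := by rw [hzdef]; ring
    have hp : b ^ 2 * p = 1 + b - z := by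
      have : b ^ 2 * (b ^ (j + 1) * a) = z := by
        have : b ^ 2 * (b ^ (j + 1) * a) = b ^ (j + 2) * (b * a) := by ring
        rw [this, ba1, mul_one]
      have h6 : b ^ 2 * (c - p) = z := by rw [← l]; exact this
      have h7 : b ^ 2 * c = b + 1 := by
        have : b ^ 2 * c = b * (b * c) := by ring
        rw [this, hc]; nlinarith
      nlinarith
    have hr' : b ^ 2 * r = b * z - 1 - b := by
      have h6 : b ^ 2 * (c + r) = b * z := by rw [← k, hzdef]; ring
      have h7 : b ^ 2 * c = b + 1 := by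
        have : b ^ 2 * c = b * (b * c) := by ring
        rw [this, hc]; nlinarith
      nlinarith
    -- both inequalities
    have hb2 : 0 < b ^ 2 := by positivity
    have q1 : b * z - 1 - b ≤ (1 + b - z) * (z - 1) := by
      have h8 : b ^ 2 * (b * r) ≤ b ^ 2 * (b * (p * (a + b * r))) :=
        mul_le_mul_of_nonneg_left this hb2.le
      have h9 : b ^ 2 * (b * (p * (a + b * r))) = (b ^ 2 * p) * (b * a + b ^ 2 * r) := by ring
      have h10 : b ^ 2 * (b * r) = b * (b ^ 2 * r) := by ring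
      rw [h9, h10, hp, hr', ba1] at h8
      have h11 : (1 + b - z) * (1 + (b * z - 1 - b)) = b * ((1 + b - z) * (z - 1)) := by ring
      rw [h11] at h8
      exact le_of_mul_le_mul_left h8 b0
    have q2 : (1 + b - z) * (z - 1) ≤ b * z - 1 - b := by
      have h8 : b ^ 2 * p ≤ b ^ 2 * (r * (b - b ^ 2 * p)) :=
        mul_le_mul_of_nonneg_left k' hb2.le
      have h9 : b ^ 2 * (r * (b - b ^ 2 * p)) = (b ^ 2 * r) * (b - b ^ 2 * p) := by ring
      rw [h9, hp, hr'] at h8
      have h11 : b * ((1 + b - z) * (z - 1)) ≤ b * (b * z - 1 - b) := by nlinarith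
      exact le_of_mul_le_mul_left h11 b0
    have q3 : z * (2 - z) = 0 := by nlinarith
    have hz0' : z ≠ 0 := (pow_pos b0 _).ne'
    rcases mul_eq_zero.1 q3 with h | h
    · exact absurd h hz0'
    · linarith
  exact hx ⟨ba1, j + 2, by omega, hz⟩

end Pool.Agent.H99.BT
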