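import Mathlib
import Pool.Agent.H99.BT.Core

set_option autoImplicit false

/-! # Locally eventually onto, in terms of sequences of open sets -/

namespace Pool.Agent.H99.BT

open Set Filter Topology

/-- one step for the maps `y ↦ b y` (left of `c`) and `y ↦ b y - 1` (right of `c`) -/
def stp (b c : ℝ) (A : Set ℝ) : Set ℝ :=
  {y | y / b ∈ A ∧ y / b < c} ∪ {y | (y + 1) / b ∈ A ∧ c < (y + 1) / b}

lemma stp_open {b c : ℝ} {A : Set ℝ} (hA : IsOpen A) : IsOpen (stp b c A) := by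
  refine IsOpen.union ?_ ?_
  · exact (hA.preimage (by fun_prop : Continuous fun y : ℝ => y / b)).inter
      (isOpen_lt (f := fun y : ℝ => y / b) (g := fun _ => c) (by fun_prop) continuous_const)
  · exact (hA.preimage (by fun_prop : Continuous fun y : ℝ => (y + 1) / b)).inter
      (isOpen_lt (f := fun _ : ℝ => c) (g := fun y : ℝ => (y + 1) / b) continuous_const
        (by fun_prop))

lemma stp_mono {b c : ℝ} {A A' : Set ℝ} (h : A ⊆ A') : stp b c A ⊆ stp b c A' := by
  rintro y (⟨h1, h2⟩ | ⟨h1, h2⟩)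
  · exact Or.inl ⟨h h1, h2⟩
  · exact Or.inr ⟨h h1, h2⟩

lemma mem_stp1 {b c : ℝ} (b0 : 0 < b) {A : Set ℝ} {y : ℝ} (h : y ∈ A) (hy : y < c) :
    b * y ∈ stp b c A := by
  have : b * y / b = y := by field_simp
  exact Or.inl ⟨by rw [this]; exact h, by rw [this]; exact hy⟩

lemma mem_stp2 {b c : ℝ} (b0 : 0 < b) {A : Set ℝ} {y : ℝ} (h : y ∈ A) (hy : c < y) :
    b * y - 1 ∈ stp b c A := by
  have : (b * y - 1 + 1) / b = y := by field_simp; ring
  exact Or.inr ⟨by rw [this]; exact h, by rw [this]; exact hy⟩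

/-- the iterates -/
def itr (b c : ℝ) (A : Set ℝ) : ℕ → Set ℝ
  | 0 => A
  | n + 1 => stp b c (itr b c A n)

lemma itr_open {b c : ℝ} {A : Set ℝ} (hA : IsOpen A) (n : ℕ) : IsOpen (itr b c A n) := by
  induction n with
  | zero => exact hA
  | succ n ih => exact stp_open ih

theorem leoAbs {b a c : ℝ} (b1 : 1 < b) (a0 : 0 ≤ a) (ba : b * a ≤ 1) (hc : b * c = 1 + a)
    (hY : b * (1 + a) - 1 ≤ 1 + a)
    (hx : ¬ (b * a = 1 ∧ ∃ n : ℕ, 2 ≤ n ∧ b ^ n = 2))
    (G : ℕ → Set ℝ) (hG : ∀ n, IsOpen (G n)) (sub : ∀ n, G n ⊆ Ioo a (1 + a))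
    (P1 : ∀ n, ∀ y ∈ G n, y < c → b * y ∈ G (n + 1))
    (P2 : ∀ n, ∀ y ∈ G n, c < y → b * y - 1 ∈ G (n + 1)) (hne : (G 0).Nonempty)
    {K : Set ℝ} (hK : IsCompact K) (hKs : K ⊆ Ioo a (1 + a)) : ∃ n, K ⊆ G n := by
  classical
  have b0 : 0 < b := by linarith
  have hcore : ∀ {B : Set ℝ}, IsOpen B → B ⊆ Ioo a (1 + a) → (∀ y ∈ B, y < c → b * y ∈ B) →
      (∀ y ∈ B, c < y → b * y - 1 ∈ B) → B.Nonempty → Ioo a (1 + a) ⊆ B :=
    fun h1 h2 h3 h4 h5 => openCore b1 a0 ba hc hx h1 h2 h3 h4 h5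
  -- the union of all the sets
  have hO : Ioo a (1 + a) ⊆ ⋃ n, G n := by
    refine hcore (isOpen_iUnion hG) (iUnion_subset sub) ?_ ?_ ?_
    · intro y hy hyc
      obtain ⟨n, hn⟩ := mem_iUnion.1 hy
      exact mem_iUnion.2 ⟨n + 1, P1 n y hn hyc⟩
    · intro y hy hyc
      obtain ⟨n, hn⟩ := mem_iUnion.1 hy
      exact mem_iUnion.2 ⟨n + 1, P2 n y hn hyc⟩
    · obtain ⟨y, hy⟩ := hne
      exact ⟨y, mem_iUnion.2 ⟨0, hy⟩⟩
  -- a periodic point with one step on the right
  set Y : ℝ := b * (1 + a) - 1 with hYdef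
  have Y0 : 0 < Y := by nlinarith
  have hex : ∃ i : ℕ, 1 + a < b ^ i * Y :=
    (((tendsto_pow_atTop_atTop_of_one_lt b1).atTop_mul_const Y0).eventually_gt_atTop (1 + a)).exists
  set i := Nat.find hex with hi
  have hi1 : 1 + a < b ^ i * Y := Nat.find_spec hex
  have hi0 : i ≠ 0 := by
    intro h
    rw [h] at hi1
    simp at hi1
    linarith
  obtain ⟨l, hl⟩ : ∃ l, i = l + 1 := ⟨i - 1, by omega⟩
  have hi2 : b ^ l * Y ≤ 1 + a := by
    by_contra! h
    have := Nat.find_min' hex h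
    omega
  have bl : 0 < b ^ l := pow_pos b0 l
  have bi : 0 < b ^ i := pow_pos b0 i
  have hbi : b ^ i = b * b ^ l := by rw [hl]; ring
  have bl1 : 1 ≤ b ^ l := one_le_pow₀ b1.le
  have hq1 : 1 < b * b ^ i := by
    have : 1 ≤ b ^ i := one_le_pow₀ b1.le
    nlinarith
  have hq0 : 0 < b * b ^ i - 1 := by linarith
  set z : ℝ := 1 / (b * b ^ i - 1) with hz
  have hzq : z * (b * b ^ i - 1) = 1 := by rw [hz]; field_simp
  have hz0 : 0 < z := by rw [hz]; positivity
  have z1 : a ≤ z := by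
    rw [hz, le_div_iff₀ hq0]
    have h1 : b * (b * a) ≤ Y := by nlinarith
    have h2 : b ^ l * (b * (b * a)) ≤ b ^ l * Y := mul_le_mul_of_nonneg_left h1 bl.le
    have h3 : a * (b * b ^ i - 1) = b ^ l * (b * (b * a)) - a := by rw [hbi]; ring
    rw [h3]; linarith
  have z4 : b ^ i * z < 1 + a := by
    rw [hz, mul_one_div, div_lt_iff₀ hq0]
    nlinarith
  have z2 : b ^ l * z < c := by
    have : b * (b ^ l * z) < b * c := by rw [hc, ← mul_assoc, ← hbi]; exact z4
    exact lt_of_mul_lt_mul_left this b0.le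
  have z3 : c ≤ b ^ i * z := by
    have : b * c ≤ b * (b ^ i * z) := by
      rw [hc]; nlinarith
    exact le_of_mul_le_mul_left this b0
  -- a small interval to the right of `z`
  obtain ⟨m, ε, hε, hm⟩ : ∃ (m : ℕ) (ε : ℝ), 0 < ε ∧ Ioo z (z + ε) ⊆ G m := by
    rcases z1.eq_or_lt with h | h
    · have hcO : c ∈ Ioo a (1 + a) := by
        constructor
        · have : b * a < b * c := by rw [hc]; linarith
          exact lt_of_mul_lt_mul_left this b0.le
        · nlinarith
      obtain ⟨n, hn⟩ := mem_iUnion.1 (hO hcO)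
      obtain ⟨s, t, hst, hsub⟩ := mem_nhds_iff_exists_Ioo_subset.1 ((hG n).mem_nhds hn)
      refine ⟨n + 1, b * (t - c), mul_pos b0 (by linarith [hst.2]), ?_⟩
      intro x hxx
      have h1 : c < (x + 1) / b := by
        rw [lt_div_iff₀ b0]; linarith [hxx.1]
      have h2 : (x + 1) / b < t := by
        rw [div_lt_iff₀ b0]; nlinarith [hxx.2]
      have h3 := P2 n _ (hsub ⟨by linarith [hst.1], h2⟩) h1
      have h4 : b * ((x + 1) / b) - 1 = x := by field_simp; ring
      rwa [h4] at h3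
    · have hzO : z ∈ Ioo a (1 + a) := by
        refine ⟨h, lt_of_le_of_lt ?_ z4⟩
        have : 1 ≤ b ^ i := one_le_pow₀ b1.le
        nlinarith
      obtain ⟨n, hn⟩ := mem_iUnion.1 (hO hzO)
      obtain ⟨s, t, hst, hsub⟩ := mem_nhds_iff_exists_Ioo_subset.1 ((hG n).mem_nhds hn)
      refine ⟨n, t - z, by linarith [hst.2], ?_⟩
      intro x hxx
      exact hsub ⟨by linarith [hst.1, hxx.1], by linarith [hxx.2]⟩
  obtain ⟨δ, hδ, hδε, hδ1, hδ2⟩ : ∃ δ : ℝ, 0 < δ ∧ δ ≤ ε ∧ b ^ l * (z + δ) ≤ c ∧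
      b ^ i * (z + δ) ≤ 1 + a := by
    refine ⟨min ε (min ((c - b ^ l * z) / b ^ l) ((1 + a - b ^ i * z) / b ^ i)), ?_, min_le_left _ _,
      ?_, ?_⟩
    · refine lt_min hε (lt_min ?_ ?_)
      · exact div_pos (by linarith) bl
      · exact div_pos (by linarith) bi
    · have h1 : min ε (min ((c - b ^ l * z) / b ^ l) ((1 + a - b ^ i * z) / b ^ i)) ≤
          (c - b ^ l * z) / b ^ l := (min_le_right _ _).trans (min_le_left _ _)
      rw [le_div_iff₀ bl] at h1
      nlinarith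
    · have h1 : min ε (min ((c - b ^ l * z) / b ^ l) ((1 + a - b ^ i * z) / b ^ i)) ≤
          (1 + a - b ^ i * z) / b ^ i := (min_le_right _ _).trans (min_le_right _ _)
      rw [le_div_iff₀ bi] at h1
      nlinarith
  set F : ℕ → Set ℝ := itr b c (Ioo z (z + δ)) with hF
  have hFo : ∀ n, IsOpen (F n) := fun n => itr_open isOpen_Ioo n
  have hFs : ∀ n, F (n + 1) = stp b c (F n) := fun n => rfl
  have hFG : ∀ n, F n ⊆ G (m + n) := by
    intro n
    induction n with
    | zero => exact (Ioo_subset_Ioo_right (by linarith)).trans hm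
    | succ n ih =>
      rw [hFs]
      rintro y (⟨h1, h2⟩ | ⟨h1, h2⟩)
      · have := P1 _ _ (ih h1) h2
        rwa [show b * (y / b) = y by field_simp] at this
      · have := P2 _ _ (ih h1) h2
        rwa [show b * ((y + 1) / b) - 1 = y by field_simp; ring] at this
  have hFsub : ∀ n, F n ⊆ Ioo a (1 + a) := fun n => (hFG n).trans (sub _)
  have hFj : ∀ j, j ≤ l + 1 → Ioo (b ^ j * z) (b ^ j * (z + δ)) ⊆ F j := by
    intro j
    induction j with
    | zero => intro _; simp only [pow_zero, one_mul]; exact le_refl _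
    | succ j ih =>
      intro hj y hy
      rw [hFs]
      have h1 : y / b ∈ Ioo (b ^ j * z) (b ^ j * (z + δ)) := by
        constructor
        · rw [lt_div_iff₀ b0]
          have := hy.1
          rw [pow_succ] at this
          linarith
        · rw [div_lt_iff₀ b0]
          have := hy.2
          rw [pow_succ] at this
          linarith
      have h2 : b ^ j * (z + δ) ≤ b ^ l * (z + δ) :=
        mul_le_mul_of_nonneg_right (pow_le_pow_right₀ b1.le (by omega)) (by linarith)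
      exact Or.inl ⟨ih (by omega) h1, by linarith [h1.2]⟩
  set k : ℕ := i + 1 with hk
  have hFk : F 0 ⊆ F k := by
    intro y hy
    have hy' : y ∈ Ioo z (z + δ) := hy
    rw [hk, hFs]
    have h1 : (y + 1) / b ∈ Ioo (b ^ (l + 1) * z) (b ^ (l + 1) * (z + δ)) := by
      rw [← hl]
      constructor
      · rw [lt_div_iff₀ b0]; nlinarith [hy'.1]
      · rw [div_lt_iff₀ b0]; nlinarith [hy'.2]
    rw [hl]
    refine Or.inr ⟨hFj (l + 1) le_rfl h1, ?_⟩
    have := h1.1
    rw [← hl] at this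
    linarith
  have hFmono : ∀ n, F n ⊆ F (n + k) := by
    intro n
    induction n with
    | zero => simpa using hFk
    | succ n ih =>
      rw [show n + 1 + k = (n + k) + 1 by omega, hFs, hFs]
      exact stp_mono ih
  set O : ℕ → Set ℝ := fun j => ⋃ n : ℕ, F (k * n + j) with hOdef
  have hOo : ∀ j, IsOpen (O j) := fun j => isOpen_iUnion fun n => hFo _
  have hOs : ∀ j, O j ⊆ Ioo a (1 + a) := fun j => iUnion_subset fun n => hFsub _
  have hO1 : ∀ j, ∀ y ∈ O j, y < c → b * y ∈ O (j + 1) := by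
    intro j y hy hyc
    obtain ⟨n, hn⟩ := mem_iUnion.1 hy
    exact mem_iUnion.2 ⟨n, by rw [← add_assoc, hFs]; exact mem_stp1 b0 hn hyc⟩
  have hO2 : ∀ j, ∀ y ∈ O j, c < y → b * y - 1 ∈ O (j + 1) := by
    intro j y hy hyc
    obtain ⟨n, hn⟩ := mem_iUnion.1 hy
    exact mem_iUnion.2 ⟨n, by rw [← add_assoc, hFs]; exact mem_stp2 b0 hn hyc⟩
  have hOk : O k ⊆ O 0 := by
    intro y hy
    obtain ⟨n, hn⟩ := mem_iUnion.1 hy
    exact mem_iUnion.2 ⟨n + 1, by rwa [show k * (n + 1) + 0 = k * n + k by ring]⟩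
  have hkpos : 0 < k := by omega
  set cnt : ℝ → ℕ := fun y => ((Finset.range k).filter fun j => y ∈ O j).card with hcnt
  have hcnt_step : ∀ y y' : ℝ, (∀ j, y ∈ O j → y' ∈ O (j + 1)) → cnt y ≤ cnt y' := by
    intro y y' h
    refine Finset.card_le_card_of_injOn (fun j => (j + 1) % k) ?_ ?_
    · intro j hj
      simp only [Finset.coe_filter, Finset.mem_range, mem_ofPred_eq] at hj ⊢
      refine ⟨Nat.mod_lt _ hkpos, ?_⟩
      rcases Nat.lt_or_ge (j + 1) k with h1 | h1
      · rw [Nat.mod_eq_of_lt h1]; exact h j hj.2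
      · have h2 : j + 1 = k := by omega
        rw [h2, Nat.mod_self]
        apply hOk
        rw [← h2]
        exact h j hj.2
    · intro j hj j' hj' he
      simp only [Finset.coe_filter, Finset.mem_range, mem_ofPred_eq] at hj hj'
      simp only at he
      rcases Nat.lt_or_ge (j + 1) k with h1 | h1 <;> rcases Nat.lt_or_ge (j' + 1) k with h2 | h2
      · rw [Nat.mod_eq_of_lt h1, Nat.mod_eq_of_lt h2] at he; omega
      · rw [Nat.mod_eq_of_lt h1, show j' + 1 = k by omega, Nat.mod_self] at he; omega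
      · rw [Nat.mod_eq_of_lt h2, show j + 1 = k by omega, Nat.mod_self] at he; omega
      · omega
  have hcntk : ∀ y, cnt y ≤ k := fun y => by
    have := Finset.card_filter_le (Finset.range k) (fun j => y ∈ O j)
    simpa using this
  -- the maximal multiplicity
  obtain ⟨y0, hy0, hmax⟩ : ∃ y0 ∈ Ioo a (1 + a), ∀ y ∈ Ioo a (1 + a), cnt y ≤ cnt y0 := by
    have hb : BddAbove (cnt '' Ioo a (1 + a)) := ⟨k, by rintro _ ⟨y, -, rfl⟩; exact hcntk y⟩
    have hn : (cnt '' Ioo a (1 + a)).Nonempty := (nonempty_Ioo.2 (by linarith)).image _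
    obtain ⟨y0, h1, h2⟩ := Nat.sSup_mem hn hb
    exact ⟨y0, h1, fun y hy => by rw [h2]; exact le_csSup hb ⟨y, hy, rfl⟩⟩
  set M := cnt y0 with hM
  set B : Set ℝ := {y | y ∈ Ioo a (1 + a) ∧ M ≤ cnt y} with hB
  have hBo : IsOpen B := by
    rw [isOpen_iff_forall_mem_open]
    intro y hy
    refine ⟨Ioo a (1 + a) ∩ ⋂ j ∈ (Finset.range k).filter (fun j => y ∈ O j), O j, ?_,
      isOpen_Ioo.inter (isOpen_biInter_finset fun j _ => hOo j), hy.1, ?_⟩
    · intro x hxx
      refine ⟨hxx.1, hy.2.trans (Finset.card_le_card fun j hj => ?_)⟩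
      have h1 := mem_iInter₂.1 hxx.2 j hj
      exact Finset.mem_filter.2 ⟨(Finset.mem_filter.1 hj).1, h1⟩
    · exact mem_iInter₂.2 fun j hj => (Finset.mem_filter.1 hj).2
  have hBall : Ioo a (1 + a) ⊆ B := by
    refine hcore hBo (fun y hy => hy.1) ?_ ?_ ⟨y0, hy0, le_refl _⟩
    · intro y hy hyc
      refine ⟨⟨?_, ?_⟩, hy.2.trans (hcnt_step _ _ fun j hj => hO1 j y hj hyc)⟩
      · have := hy.1.1
        nlinarith
      · have : b * y < b * c := mul_lt_mul_of_pos_left hyc b0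
        linarith
    · intro y hy hyc
      refine ⟨⟨?_, ?_⟩, hy.2.trans (hcnt_step _ _ fun j hj => hO2 j y hj hyc)⟩
      · have : b * c < b * y := mul_lt_mul_of_pos_left hyc b0
        linarith
      · have : b * y < b * (1 + a) := mul_lt_mul_of_pos_left hy.1.2 b0
        linarith
  -- all multiplicities are equal, so `O 0` is everything
  have hO0 : Ioo a (1 + a) ⊆ O 0 := by
    set V : Set ℝ := ⋃ S ∈ (Finset.range k).powerset.filter (fun S => 0 ∉ S ∧ S.card = M),
      (Ioo a (1 + a) ∩ ⋂ j ∈ S, O j) with hV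
    have hVo : IsOpen V := isOpen_biUnion fun S _ =>
      isOpen_Ioo.inter (isOpen_biInter_finset fun j _ => hOo j)
    refine IsPreconnected.subset_left_of_subset_union (hOo 0) hVo ?_ ?_ ?_ isPreconnected_Ioo
    · rw [Set.disjoint_left]
      intro y hy0 hyV
      obtain ⟨S, hS, hyS⟩ := mem_iUnion₂.1 hyV
      obtain ⟨hS1, hS2, hS3⟩ := Finset.mem_filter.1 hS
      rw [Finset.mem_powerset] at hS1
      have h1 : (insert 0 S).card ≤ cnt y := by
        refine Finset.card_le_card fun j hj => ?_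
        rcases Finset.mem_insert.1 hj with rfl | hj
        · exact Finset.mem_filter.2 ⟨Finset.mem_range.2 hkpos, hy0⟩
        · exact Finset.mem_filter.2 ⟨hS1 hj, mem_iInter₂.1 hyS.2 j hj⟩
      rw [Finset.card_insert_of_notMem hS2, hS3] at h1
      have := hmax y hyS.1
      omega
    · intro y hy
      by_cases h0 : y ∈ O 0
      · exact Or.inl h0
      · right
        refine mem_iUnion₂.2 ⟨(Finset.range k).filter (fun j => y ∈ O j), ?_, hy, ?_⟩
        · refine Finset.mem_filter.2 ⟨Finset.mem_powerset.2 (Finset.filter_subset _ _), ?_, ?_⟩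
          · intro h; exact h0 (Finset.mem_filter.1 h).2
          · exact le_antisymm (hmax y hy) (hBall hy).2
        · exact mem_iInter₂.2 fun j hj => (Finset.mem_filter.1 hj).2
    · have h1 : z + δ / 2 ∈ F 0 := ⟨by linarith, by linarith⟩
      exact ⟨_, hFsub 0 h1, mem_iUnion.2 ⟨0, by simpa using h1⟩⟩
  -- compactness
  have hmono : Monotone fun n : ℕ => F (k * n + 0) := by
    refine monotone_nat_of_le_succ fun n => ?_
    have := hFmono (k * n + 0)
    rwa [show k * n + 0 + k = k * (n + 1) + 0 by ring] at this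
  obtain ⟨n, hn⟩ := hK.elim_directed_cover (fun n : ℕ => F (k * n + 0)) (fun n => hFo _)
    (hKs.trans hO0) hmono.directed_le
  exact ⟨_, hn.trans (hFG _)⟩

end Pool.Agent.H99.BT
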