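import Mathlib
import Pool.Agent.H99.BT.Abs
import Pool.Graph.R_pool_sql_team_39128cda.Results.MP_ea58a7_an.Yes

set_option autoImplicit false

/-! # The transformations `x ↦ β x + α` modulo one -/

namespace Pool.Agent.H99.BT

open Set Filter Topology

/-- the transformation `x ↦ β x + α` modulo `1` -/
noncomputable def T (α β x : ℝ) : ℝ := Int.fract (β * x + α)

/-- topological transitivity of the `k`-th iterate on `[0, 1)`: for all relatively open nonempty
sets `U ∩ [0, 1)` and `V ∩ [0, 1)` there is `n` such that `T ^ (k n)` maps a point of the first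
into the second -/
def PowerTransitive (α β : ℝ) (k : ℕ) : Prop := ∀ U V : Set ℝ, IsOpen U → IsOpen V →
  (U ∩ Ico 0 1).Nonempty → (V ∩ Ico 0 1).Nonempty →
    ∃ n : ℕ, ((T α β)^[k * n] '' (U ∩ Ico 0 1) ∩ (V ∩ Ico 0 1)).Nonempty

/-- topological mixing on `[0, 1)` -/
def Mixing (α β : ℝ) : Prop := ∀ U V : Set ℝ, IsOpen U → IsOpen V →
  (U ∩ Ico 0 1).Nonempty → (V ∩ Ico 0 1).Nonempty →
    ∃ N : ℕ, ∀ n, N ≤ n → ((T α β)^[n] '' (U ∩ Ico 0 1) ∩ (V ∩ Ico 0 1)).Nonempty

/-- locally eventually onto: some iterate of each nonempty relatively open set is `[0, 1)` -/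
def LocallyEventuallyOnto (α β : ℝ) : Prop := ∀ U : Set ℝ, IsOpen U → (U ∩ Ico 0 1).Nonempty →
  ∃ n : ℕ, (T α β)^[n] '' (U ∩ Ico 0 1) = Ico 0 1

/-- the exceptional parameters: `β ^ n = 2` for some `n ≥ 2`, and `α = 1 - 1 / β` or
`α = 1 + 1 / β - β` -/
def Exceptional (α β : ℝ) : Prop :=
  (∃ n : ℕ, 2 ≤ n ∧ β ^ n = 2) ∧ (α = 1 - 1 / β ∨ α = 1 + 1 / β - β)

lemma T_mem (α β x : ℝ) : T α β x ∈ Ico (0 : ℝ) 1 := ⟨Int.fract_nonneg _, Int.fract_lt_one _⟩

lemma T_left {α β x : ℝ} (hα : 0 ≤ α) (hβ : 0 < β) (hx : 0 ≤ x) (h : β * x + α < 1) :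
    T α β x = β * x + α := Int.fract_eq_self.2 ⟨by positivity, h⟩

lemma T_right {α β x : ℝ} (hβ : 0 < β) (hs : α + β ≤ 2) (hx : x < 1) (h : 1 ≤ β * x + α) :
    T α β x = β * x + α - 1 := by
  rw [T, ← Int.fract_sub_one]
  exact Int.fract_eq_self.2 ⟨by linarith, by nlinarith⟩

lemma image_sub (α β : ℝ) {E : Set ℝ} (hE : E ⊆ Ico 0 1) (n : ℕ) :
    (T α β)^[n] '' E ⊆ Ico 0 1 := by
  rintro _ ⟨x, hx, rfl⟩
  cases n with
  | zero => exact hE hx
  | succ n => rw [Function.iterate_succ_apply']; exact T_mem _ _ _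

lemma image_succ (α β : ℝ) (E : Set ℝ) (n : ℕ) :
    (T α β)^[n + 1] '' E = T α β '' ((T α β)^[n] '' E) := by
  rw [← Set.image_comp, ← Function.iterate_succ']

lemma interior_step {α β : ℝ} (hα : 0 ≤ α) (hβ : 0 < β) (hs : α + β ≤ 2) {E : Set ℝ}
    (hE : E ⊆ Ico 0 1) {x : ℝ} (hx : x ∈ interior E) (hne : β * x + α ≠ 1) :
    T α β x ∈ interior (T α β '' E) := by
  have hx01 : x ∈ Ioo (0 : ℝ) 1 := by
    have := interior_mono hE hx
    rwa [interior_Ico] at this
  rw [mem_interior_iff_mem_nhds] at hx ⊢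
  have hg : Tendsto (fun z => x + (z - T α β x) / β) (𝓝 (T α β x)) (𝓝 x) := by
    have : ContinuousAt (fun z => x + (z - T α β x) / β) (T α β x) := by fun_prop
    have h2 := this.tendsto
    simpa using h2
  have h1 := hg.eventually hx
  rcases lt_or_gt_of_ne hne with h | h
  · have hT := T_left hα hβ hx01.1.le h
    have h2 : ∀ᶠ z in 𝓝 (T α β x), z < 1 := (T_mem α β x).2 |> fun q => eventually_lt_nhds q
    filter_upwards [h1, h2] with z hz1 hz2
    refine ⟨_, hz1, ?_⟩
    have h3 : β * (x + (z - T α β x) / β) + α = z := by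
      rw [hT]; field_simp; ring
    rw [T_left hα hβ (hE hz1).1 (by rw [h3]; exact hz2), h3]
  · have hT := T_right hβ hs hx01.2 h.le
    have h2 : ∀ᶠ z in 𝓝 (T α β x), 0 < z := eventually_gt_nhds (by rw [hT]; linarith)
    filter_upwards [h1, h2] with z hz1 hz2
    refine ⟨_, hz1, ?_⟩
    have h3 : β * (x + (z - T α β x) / β) + α = z + 1 := by
      rw [hT]; field_simp; ring
    rw [T_right hβ hs (hE hz1).2 (by rw [h3]; linarith), h3]
    ring

lemma image_core {α β : ℝ} (hα : 0 ≤ α) (hβ : 1 < β) (hs : α + β ≤ 2) {w : ℝ}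
    (hw : w ∈ Ico (0 : ℝ) 1) :
    ∃ x ∈ Icc ((β - 1) / (2 * β)) (1 - (β - 1) / (2 * β)), T α β x = w := by
  have b0 : 0 < β := by linarith
  set η := (β - 1) / (2 * β) with hη
  have he : 2 * β * η = β - 1 := by rw [hη]; field_simp
  have hη0 : 0 < η := by rw [hη]; apply div_pos <;> linarith
  obtain ⟨hw0, hw1⟩ := hw
  by_cases h : α + β * η ≤ w
  · refine ⟨(w - α) / β, ⟨?_, ?_⟩, ?_⟩
    · rw [le_div_iff₀ b0]; linarith
    · rw [div_le_iff₀ b0]; nlinarith
    · have h1 : β * ((w - α) / β) + α = w := by field_simp; ring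
      rw [T_left hα b0 (div_nonneg (by nlinarith) b0.le) (by rw [h1]; exact hw1), h1]
  · push Not at h
    refine ⟨(w + 1 - α) / β, ⟨?_, ?_⟩, ?_⟩
    · rw [le_div_iff₀ b0]; nlinarith
    · rw [div_le_iff₀ b0]; nlinarith
    · have h1 : β * ((w + 1 - α) / β) + α = w + 1 := by field_simp; ring
      rw [T_right b0 hs (by rw [div_lt_iff₀ b0]; nlinarith) (by rw [h1]; linarith), h1]
      ring

lemma T_surj {α β : ℝ} (hα : 0 ≤ α) (hβ : 1 < β) (hs : α + β ≤ 2) :
    T α β '' Ico 0 1 = Ico 0 1 := by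
  apply Subset.antisymm
  · rintro _ ⟨x, -, rfl⟩; exact T_mem _ _ _
  · intro w hw
    obtain ⟨x, hx, hT⟩ := image_core hα hβ hs hw
    have hη0 : 0 < (β - 1) / (2 * β) := div_pos (by linarith) (by linarith)
    exact ⟨x, ⟨by linarith [hx.1], by linarith [hx.2]⟩, hT⟩

theorem leo {α β : ℝ} (h1 : 1 < β) (h2 : 0 ≤ α) (h3 : α + β ≤ 2)
    (hC : α ≤ 1 - 1 / β ∨ 1 + 1 / β - β ≤ α) (hx : ¬ Exceptional α β) :
    LocallyEventuallyOnto α β := by
  intro U hU hUne
  have b0 : 0 < β := by linarith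
  have hb1 : 0 < β - 1 := by linarith
  set E : Set ℝ := U ∩ Ico 0 1 with hE
  have hEs : E ⊆ Ico 0 1 := inter_subset_right
  have hE0 : (interior E).Nonempty := by
    obtain ⟨x, hxU, hx01⟩ := hUne
    obtain ⟨s, t, hst, hsub⟩ := mem_nhds_iff_exists_Ioo_subset.1 (hU.mem_nhds hxU)
    have hm : x < min t 1 := lt_min hst.2 hx01.2
    refine ⟨(x + min t 1) / 2, ?_⟩
    refine interior_maximal (s := E) (t := Ioo x (min t 1)) ?_ isOpen_Ioo ⟨by linarith, by linarith⟩
    intro z hz
    exact ⟨hsub ⟨hst.1.trans hz.1, hz.2.trans_le (min_le_left _ _)⟩,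
      hx01.1.trans hz.1.le, hz.2.trans_le (min_le_right _ _)⟩
  set G : ℕ → Set ℝ := fun n => interior ((T α β)^[n] '' E) with hG
  have hGs : ∀ n, G n ⊆ Ioo 0 1 := fun n => by
    have := interior_mono (image_sub α β hEs n)
    rwa [interior_Ico] at this
  have hstep : ∀ n, ∀ x ∈ G n, β * x + α ≠ 1 → T α β x ∈ G (n + 1) := by
    intro n x hxG hne
    have := interior_step h2 b0 h3 (image_sub α β hEs n) hxG hne
    rwa [← image_succ] at this
  -- it is enough to cover the middle part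
  suffices hcov : ∃ n, Icc ((β - 1) / (2 * β)) (1 - (β - 1) / (2 * β)) ⊆ G n by
    obtain ⟨n, hn⟩ := hcov
    refine ⟨n + 1, Subset.antisymm (image_sub α β hEs _) ?_⟩
    intro w hw
    obtain ⟨x, hxI, hT⟩ := image_core h2 h1 h3 hw
    rw [image_succ]
    exact ⟨x, interior_subset (hn hxI), hT⟩
  have hη0 : 0 < (β - 1) / (2 * β) := div_pos hb1 (by linarith)
  have hib : 1 / β * β = 1 := by field_simp
  rcases hC with hC | hC
  · set a : ℝ := α / (β - 1) with ha
    have haα : (β - 1) * a = α := by rw [ha]; field_simp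
    have a0 : 0 ≤ a := div_nonneg h2 hb1.le
    set c : ℝ := (1 + a) / β with hc
    have hbc : β * c = 1 + a := by rw [hc]; field_simp
    have hab : β * a ≤ 1 := by
      have : (β - 1) * (β * a) ≤ (β - 1) * 1 := by
        have : (β - 1) * (β * a) = β * α := by rw [← haα]; ring
        rw [this]; nlinarith
      exact le_of_mul_le_mul_left this hb1
    obtain ⟨n, hn⟩ := leoAbs h1 a0 hab hbc (by nlinarith)
      (fun ⟨q1, q2⟩ => hx ⟨q2, Or.inl (by
        have : a = 1 / β := by field_simp; linarith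
        rw [← haα, this]; field_simp)⟩)
      (fun n => {y | y - a ∈ G n})
      (fun n => isOpen_interior.preimage (by fun_prop : Continuous fun y : ℝ => y - a))
      (fun n y hy => ⟨by linarith [(hGs n hy).1], by linarith [(hGs n hy).2]⟩)
      (fun n y hy hyc => by
        have h4 : β * (y - a) + α = β * y - a := by rw [← haα]; ring
        have h5 : β * y < 1 + a := by rw [← hbc]; exact mul_lt_mul_of_pos_left hyc b0
        have h6 := hstep n _ hy (by rw [h4]; intro h; linarith)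
        rw [T_left h2 b0 (hGs n hy).1.le (by rw [h4]; linarith), h4] at h6
        exact h6)
      (fun n y hy hyc => by
        have h4 : β * (y - a) + α = β * y - a := by rw [← haα]; ring
        have h5 : 1 + a < β * y := by rw [← hbc]; exact mul_lt_mul_of_pos_left hyc b0
        have h6 := hstep n _ hy (by rw [h4]; intro h; linarith)
        rw [T_right b0 h3 (hGs n hy).2 (by rw [h4]; linarith), h4] at h6
        have h7 : β * y - 1 - a = β * y - a - 1 := by ring
        change β * y - 1 - a ∈ G (n + 1)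
        rw [h7]; exact h6)
      (by
        obtain ⟨x, hxE⟩ := hE0
        exact ⟨x + a, by
          change x + a - a ∈ interior ((T α β)^[0] '' E)
          simpa using hxE⟩)
      (K := Icc ((β - 1) / (2 * β) + a) (1 - (β - 1) / (2 * β) + a)) isCompact_Icc
      (fun y hy => ⟨by linarith [hy.1], by linarith [hy.2]⟩)
    refine ⟨n, fun x hxI => ?_⟩
    have : x + a ∈ {y | y - a ∈ G n} := hn ⟨by linarith [hxI.1], by linarith [hxI.2]⟩
    simpa using this
  · set α' : ℝ := 2 - β - α with hα'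
    have h2' : 0 ≤ α' := by linarith
    set a : ℝ := α' / (β - 1) with ha
    have haα : (β - 1) * a = α' := by rw [ha]; field_simp
    have a0 : 0 ≤ a := div_nonneg h2' hb1.le
    set c : ℝ := (1 + a) / β with hc
    have hbc : β * c = 1 + a := by rw [hc]; field_simp
    have hab : β * a ≤ 1 := by
      have : (β - 1) * (β * a) ≤ (β - 1) * 1 := by
        have : (β - 1) * (β * a) = β * α' := by rw [← haα]; ring
        rw [this, hα']; nlinarith
      exact le_of_mul_le_mul_left this hb1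
    obtain ⟨n, hn⟩ := leoAbs h1 a0 hab hbc (by nlinarith)
      (fun ⟨q1, q2⟩ => hx ⟨q2, Or.inr (by
        have h4 : a = 1 / β := by field_simp; linarith
        have h5 : α = 2 - β - α' := by rw [hα']; ring
        rw [h5, ← haα, h4]; field_simp; ring)⟩)
      (fun n => {y | 1 - (y - a) ∈ G n})
      (fun n => isOpen_interior.preimage (by fun_prop : Continuous fun y : ℝ => 1 - (y - a)))
      (fun n y hy => ⟨by linarith [(hGs n hy).2], by linarith [(hGs n hy).1]⟩)
      (fun n y hy hyc => by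
        have h4 : β * (1 - (y - a)) + α = 2 + a - β * y := by
          have : α = 2 - β - (β - 1) * a := by rw [haα, hα']; ring
          rw [this]; ring
        have h5 : β * y < 1 + a := by rw [← hbc]; exact mul_lt_mul_of_pos_left hyc b0
        have h6 := hstep n _ hy (by rw [h4]; intro h; linarith)
        rw [T_right b0 h3 (hGs n hy).2 (by rw [h4]; linarith), h4] at h6
        have h7 : 1 - (β * y - a) = 2 + a - β * y - 1 := by ring
        change 1 - (β * y - a) ∈ G (n + 1)
        rw [h7]; exact h6)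
      (fun n y hy hyc => by
        have h4 : β * (1 - (y - a)) + α = 2 + a - β * y := by
          have : α = 2 - β - (β - 1) * a := by rw [haα, hα']; ring
          rw [this]; ring
        have h5 : 1 + a < β * y := by rw [← hbc]; exact mul_lt_mul_of_pos_left hyc b0
        have h6 := hstep n _ hy (by rw [h4]; intro h; linarith)
        rw [T_left h2 b0 (hGs n hy).1.le (by rw [h4]; linarith), h4] at h6
        have h7 : 1 - (β * y - 1 - a) = 2 + a - β * y := by ring
        change 1 - (β * y - 1 - a) ∈ G (n + 1)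
        rw [h7]; exact h6)
      (by
        obtain ⟨x, hxE⟩ := hE0
        exact ⟨1 - x + a, by
          change 1 - (1 - x + a - a) ∈ interior ((T α β)^[0] '' E)
          simpa using hxE⟩)
      (K := Icc ((β - 1) / (2 * β) + a) (1 - (β - 1) / (2 * β) + a)) isCompact_Icc
      (fun y hy => ⟨by linarith [hy.1], by linarith [hy.2]⟩)
    refine ⟨n, fun x hxI => ?_⟩
    have : 1 - x + a ∈ {y | 1 - (y - a) ∈ G n} := hn ⟨by linarith [hxI.2], by linarith [hxI.1]⟩
    simpa using this

theorem mixing_of_leo {α β : ℝ} (h1 : 1 < β) (h2 : 0 ≤ α) (h3 : α + β ≤ 2)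
    (h : LocallyEventuallyOnto α β) : Mixing α β := by
  intro U V hU hV hUne hVne
  obtain ⟨N, hN⟩ := h U hU hUne
  refine ⟨N, fun n hn => ?_⟩
  have : ∀ m, (T α β)^[N + m] '' (U ∩ Ico 0 1) = Ico 0 1 := by
    intro m
    induction m with
    | zero => simpa using hN
    | succ m ih => rw [← add_assoc, image_succ, ih, T_surj h2 h1 h3]
  obtain ⟨m, rfl⟩ := Nat.exists_eq_add_of_le hn
  rw [this m]
  obtain ⟨x, hx⟩ := hVne
  exact ⟨x, hx.2, hx⟩

theorem power_of_mixing {α β : ℝ} (h : Mixing α β) (k : ℕ) (hk : 1 ≤ k) :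
    PowerTransitive α β k := by
  intro U V hU hV hUne hVne
  obtain ⟨N, hN⟩ := h U V hU hV hUne hVne
  exact ⟨N, hN _ (Nat.le_mul_of_pos_left _ hk)⟩

theorem transitive {α β : ℝ} (h1 : 1 < β) (h2 : 0 ≤ α) (h3 : α + β ≤ 2)
    (hC : α ≤ 1 - 1 / β ∨ 1 + 1 / β - β ≤ α) : PowerTransitive α β 1 := by
  intro U V hU hV hUne hVne
  obtain ⟨n, hn⟩ := Pool.Agent.Results.MP_ea58a7_an.Yes.result α β h1 h2 h3 hC U V hU hV hUne hVne
  exact ⟨n, by rw [one_mul]; exact hn⟩

end Pool.Agent.H99.BT
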