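import Mathlib
import Pool.Agent.H99.BT.Main

set_option autoImplicit false

/-! # The exceptional parameters -/

namespace Pool.Agent.H99.BT

open Set

/-- orbits of the relation `y' = β y` for `y ≤ c`, `y' = β y - 1` for `c ≤ y`, where
`β c = 1 + 1 / β`, return to `[β ^ m, β ^ (m + 1)]` after every `m + 2` steps -/
lemma exc_return {β : ℝ} (h1 : 1 < β) {m : ℕ} (hm : β ^ (m + 2) = 2) {f : ℕ → ℝ}
    (hf : ∀ k, (β * f k ≤ 1 + 1 / β ∧ f (k + 1) = β * f k) ∨
      (1 + 1 / β ≤ β * f k ∧ f (k + 1) = β * f k - 1))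
    (h0 : β ^ m ≤ f 0 ∧ f 0 ≤ β ^ (m + 1)) (t : ℕ) :
    β ^ m ≤ f ((m + 2) * t) ∧ f ((m + 2) * t) ≤ β ^ (m + 1) := by
  have b0 : 0 < β := by linarith
  have hib : β * (1 / β) = 1 := by field_simp
  have hm1 : β * β ^ (m + 1) = 2 := by rw [← hm]; ring
  have hm2 : β * β ^ m = β ^ (m + 1) := by ring
  have hbb : β ^ 2 ≤ 2 := by
    rw [← hm]; exact pow_le_pow_right₀ h1.le (by omega)
  have hstep : ∀ k, (β ^ m ≤ f k ∧ f k ≤ β ^ (m + 1)) →
      (β ^ m ≤ f (k + (m + 2)) ∧ f (k + (m + 2)) ≤ β ^ (m + 1)) := by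
    rintro k ⟨hk1, hk2⟩
    -- the first step
    have hD : (1 / β ≤ f (k + 1) ∧ f (k + 1) ≤ 1) ∨
        (β ^ (m + 1) ≤ f (k + 1) ∧ f (k + 1) ≤ 1 + 1 / β) := by
      rcases hf k with ⟨q1, q2⟩ | ⟨q1, q2⟩
      · right; rw [q2]
        exact ⟨by rw [← hm2]; exact mul_le_mul_of_nonneg_left hk1 b0.le, q1⟩
      · left; rw [q2]
        have : β * f k ≤ β * β ^ (m + 1) := mul_le_mul_of_nonneg_left hk2 b0.le
        exact ⟨by linarith, by linarith⟩
    -- the second step
    have hE0 : 1 ≤ f (k + 2) ∧ f (k + 2) ≤ β := by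
      rcases hD with ⟨p1, p2⟩ | ⟨p1, p2⟩
      · have p3 : β * (1 / β) ≤ β * f (k + 1) := mul_le_mul_of_nonneg_left p1 b0.le
        have p4 : β * f (k + 1) ≤ β * 1 := mul_le_mul_of_nonneg_left p2 b0.le
        rcases hf (k + 1) with ⟨q1, q2⟩ | ⟨q1, q2⟩
        · rw [show k + 2 = k + 1 + 1 by ring, q2]
          exact ⟨by linarith, by linarith⟩
        · exfalso
          have h5 : 1 + 1 / β ≤ β := by linarith
          have h6 : β * (1 + 1 / β) ≤ β * β := mul_le_mul_of_nonneg_left h5 b0.le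
          nlinarith
      · have p3 : β * β ^ (m + 1) ≤ β * f (k + 1) := mul_le_mul_of_nonneg_left p1 b0.le
        have p4 : β * f (k + 1) ≤ β * (1 + 1 / β) := mul_le_mul_of_nonneg_left p2 b0.le
        have hi1 : 1 / β < 1 := by rw [div_lt_one b0]; exact h1
        rcases hf (k + 1) with ⟨q1, q2⟩ | ⟨q1, q2⟩
        · exfalso; linarith
        · rw [show k + 2 = k + 1 + 1 by ring, q2]
          exact ⟨by linarith, by linarith⟩
    -- the other steps
    have hEj : ∀ j, j ≤ m → β ^ j ≤ f (k + 2 + j) ∧ f (k + 2 + j) ≤ β ^ (j + 1) := by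
      intro j
      induction j with
      | zero => intro _; simpa using hE0
      | succ j ih =>
        intro hj
        obtain ⟨p1, p2⟩ := ih (by omega)
        have p3 : β * β ^ j ≤ β * f (k + 2 + j) := mul_le_mul_of_nonneg_left p1 b0.le
        have p4 : β * f (k + 2 + j) ≤ β * β ^ (j + 1) := mul_le_mul_of_nonneg_left p2 b0.le
        rcases hf (k + 2 + j) with ⟨q1, q2⟩ | ⟨q1, q2⟩
        · rw [show k + 2 + (j + 1) = k + 2 + j + 1 by ring, q2]
          exact ⟨by rw [pow_succ]; linarith, by rw [pow_succ β (j + 1)]; linarith⟩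
        · exfalso
          have h5 : β ^ (j + 1) ≤ β ^ m := pow_le_pow_right₀ h1.le hj
          have h6 : β * β ^ (j + 1) ≤ β * β ^ m := mul_le_mul_of_nonneg_left h5 b0.le
          have h7 : 1 + 1 / β ≤ β ^ (m + 1) := by linarith
          have h8 : β * (1 + 1 / β) ≤ β * β ^ (m + 1) := mul_le_mul_of_nonneg_left h7 b0.le
          rw [hm1] at h8
          linarith
    have := hEj m le_rfl
    rw [show k + (m + 2) = k + 2 + m by ring]
    exact this
  induction t with
  | zero => simpa using h0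
  | succ t ih => rw [show (m + 2) * (t + 1) = (m + 2) * t + (m + 2) by ring]; exact hstep _ ih

theorem not_power {α β : ℝ} (h1 : 1 < β) {n : ℕ} (hn : 2 ≤ n) (hβ : β ^ n = 2)
    (hα : α = 1 - 1 / β ∨ α = 1 + 1 / β - β) : ¬ PowerTransitive α β n := by
  obtain ⟨m, rfl⟩ : ∃ m, n = m + 2 := ⟨n - 2, by omega⟩
  have b0 : 0 < β := by linarith
  have hib : β * (1 / β) = 1 := by field_simp
  have hi0 : 0 < 1 / β := by positivity
  have hi1 : 1 / β < 1 := by rw [div_lt_one b0]; exact h1
  have hm1 : β * β ^ (m + 1) = 2 := by rw [← hβ]; ring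
  have hm2 : β * β ^ m = β ^ (m + 1) := by ring
  have hbb : β ^ 2 ≤ 2 := by
    rw [← hβ]; exact pow_le_pow_right₀ h1.le (by omega)
  have hbm : 1 ≤ β ^ m := one_le_pow₀ h1.le
  have hbm' : β ^ m < β ^ (m + 1) := pow_lt_pow_right₀ h1 (by omega)
  have hlt : β ^ (m + 1) < 1 + 1 / β := by
    have : β * β ^ (m + 1) < β * (1 + 1 / β) := by rw [hm1]; linarith
    exact lt_of_mul_lt_mul_left this b0.le
  intro hP
  rcases hα with hα | hα
  · have h2 : 0 ≤ α := by linarith
    have h3 : α + β ≤ 2 := by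
      have : β * (β - 1 / β) ≤ β * 1 := by nlinarith
      have := le_of_mul_le_mul_left this b0
      linarith
    obtain ⟨t, w, ⟨x, ⟨hxU, hx01⟩, rfl⟩, hwV, hw01⟩ := hP
      (Ioo (β ^ m - 1 / β) (β ^ (m + 1) - 1 / β)) (Ioo 0 (1 - 1 / β)) isOpen_Ioo isOpen_Ioo
      ⟨(β ^ m + β ^ (m + 1)) / 2 - 1 / β, ⟨by linarith, by linarith⟩, by linarith, by linarith⟩
      ⟨(1 - 1 / β) / 2, ⟨by linarith, by linarith⟩, by linarith, by linarith⟩
    have hmem : ∀ k, (T α β)^[k] x ∈ Ico (0 : ℝ) 1 := by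
      intro k
      cases k with
      | zero => exact hx01
      | succ k => rw [Function.iterate_succ_apply']; exact T_mem _ _ _
    have := exc_return h1 hβ (f := fun k => (T α β)^[k] x + 1 / β) (fun k => by
      simp only [Function.iterate_succ_apply']
      obtain ⟨p1, p2⟩ := hmem k
      set z := (T α β)^[k] x
      have h5 : β * z + α = β * (z + 1 / β) - 1 / β := by rw [mul_add, hib, hα]; ring
      rcases lt_or_ge (β * z + α) 1 with h | h
      · left
        rw [T_left h2 b0 p1 h, h5]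
        exact ⟨by linarith, by ring⟩
      · right
        rw [T_right b0 h3 p2 h, h5]
        exact ⟨by linarith, by ring⟩)
      ⟨by simp only [Function.iterate_zero, id]; linarith [hxU.1],
        by simp only [Function.iterate_zero, id]; linarith [hxU.2]⟩ t
    have h6 := this.1
    linarith [hwV.2]
  · have h2 : 0 ≤ α := by
      have : β * (β - 1 / β) ≤ β * 1 := by nlinarith
      have := le_of_mul_le_mul_left this b0
      linarith
    have h3 : α + β ≤ 2 := by linarith
    obtain ⟨t, w, ⟨x, ⟨hxU, hx01⟩, rfl⟩, hwV, hw01⟩ := hP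
      (Ioo (1 + 1 / β - β ^ (m + 1)) (1 + 1 / β - β ^ m)) (Ioo (1 / β) 1) isOpen_Ioo isOpen_Ioo
      ⟨1 + 1 / β - (β ^ m + β ^ (m + 1)) / 2, ⟨by linarith, by linarith⟩, by linarith,
        by linarith⟩
      ⟨(1 + 1 / β) / 2, ⟨by linarith, by linarith⟩, by linarith, by linarith⟩
    have hmem : ∀ k, (T α β)^[k] x ∈ Ico (0 : ℝ) 1 := by
      intro k
      cases k with
      | zero => exact hx01
      | succ k => rw [Function.iterate_succ_apply']; exact T_mem _ _ _
    have := exc_return h1 hβ (f := fun k => 1 - (T α β)^[k] x + 1 / β) (fun k => by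
      simp only [Function.iterate_succ_apply']
      obtain ⟨p1, p2⟩ := hmem k
      set z := (T α β)^[k] x
      have h5 : β * z + α = 2 + 1 / β - β * (1 - z + 1 / β) := by
        rw [mul_add, hib, hα]; ring
      rcases lt_or_ge (β * z + α) 1 with h | h
      · right
        rw [T_left h2 b0 p1 h, h5]
        exact ⟨by linarith, by ring⟩
      · left
        rw [T_right b0 h3 p2 h, h5]
        exact ⟨by linarith, by ring⟩)
      ⟨by simp only [Function.iterate_zero, id]; linarith [hxU.2],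
        by simp only [Function.iterate_zero, id]; linarith [hxU.1]⟩ t
    have h6 := this.1
    linarith [hwV.1]

end Pool.Agent.H99.BT
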